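import Pool.Agent.Y245.SG.Stm

/-!
# The Bessel-Clifford functions (job SG-BES of helper245)
-/

set_option autoImplicit false

open Complex

namespace Pool.Agent.Y971.SG

open Pool.Agent.Y245.SG

/-- The terms of the series. -/
noncomputable def tm (ν : ℕ) (z : ℂ) (k : ℕ) : ℂ :=
  (-z) ^ k / ((k.factorial : ℂ) * ((k + ν).factorial : ℂ))

lemma tm_norm_le (ν : ℕ) (z : ℂ) (k : ℕ) : ‖tm ν z k‖ ≤ ‖z‖ ^ k / (k.factorial : ℝ) := by
  rw [tm, norm_div, norm_mul, norm_pow, norm_neg, norm_natCast, norm_natCast]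
  have h1 : (0 : ℝ) < k.factorial := by exact_mod_cast Nat.factorial_pos k
  have h2 : (1 : ℝ) ≤ (k + ν).factorial := by exact_mod_cast Nat.factorial_pos (k + ν)
  apply div_le_div_of_nonneg_left (by positivity) h1
  nlinarith

lemma tm_summable (ν : ℕ) (z : ℂ) : Summable (tm ν z) :=
  Summable.of_norm_bounded (Real.summable_pow_div_factorial ‖z‖) (tm_norm_le ν z)

lemma hasSum_tm (ν : ℕ) (z : ℂ) : HasSum (tm ν z) (Bn ν z) := (tm_summable ν z).hasSum

/-- The derivatives of the terms. -/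
noncomputable def dtm (ν : ℕ) (k : ℕ) (z : ℂ) : ℂ :=
  match k with
  | 0 => 0
  | k + 1 => -tm (ν + 1) z k

lemma hasDerivAt_tm (ν k : ℕ) (z : ℂ) : HasDerivAt (fun z => tm ν z k) (dtm ν k z) z := by
  cases k with
  | zero =>
    have : (fun z => tm ν z 0) = fun _ => 1 / ((Nat.factorial 0 : ℂ) * ((0 + ν).factorial : ℂ)) := by
      funext z
      simp [tm]
    rw [this]
    exact hasDerivAt_const _ _
  | succ k =>
    have h1 : HasDerivAt (fun z : ℂ => (-z) ^ (k + 1)) (((k + 1 : ℕ) : ℂ) * (-z) ^ k * (-1)) z := by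
      have h := (hasDerivAt_neg z).fun_pow (k + 1)
      rw [Nat.add_sub_cancel] at h
      exact h
    have h2 := h1.div_const ((((k + 1).factorial : ℕ) : ℂ) * ((k + 1 + ν).factorial : ℂ))
    refine h2.congr_deriv ?_
    have e1 : ((k.factorial : ℕ) : ℂ) ≠ 0 := by exact_mod_cast Nat.factorial_ne_zero k
    have e2 : (((k + 1 + ν).factorial : ℕ) : ℂ) ≠ 0 := by
      exact_mod_cast Nat.factorial_ne_zero (k + 1 + ν)
    have e3 : ((k : ℂ) + 1) ≠ 0 := by exact_mod_cast Nat.succ_ne_zero k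
    have e4 : k + (ν + 1) = k + 1 + ν := by omega
    simp only [dtm, tm, e4, Nat.factorial_succ k]
    push_cast
    field_simp

lemma hasDerivAt_Bn (ν : ℕ) (z : ℂ) : HasDerivAt (Bn ν) (-Bn (ν + 1) z) z := by
  let R : ℝ := ‖z‖ + 1
  let u : ℕ → ℝ := fun n => match n with
    | 0 => 0
    | n + 1 => R ^ n / (n.factorial : ℝ)
  have hu : Summable u := by
    rw [← summable_nat_add_iff 1]
    exact Real.summable_pow_div_factorial R
  have hball : z ∈ Metric.ball (0 : ℂ) R := by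
    rw [mem_ball_zero_iff]
    exact lt_add_one _
  have key := hasDerivAt_tsum_of_isPreconnected (𝕜 := ℂ) (g := fun n z => tm ν z n)
    (g' := fun n z => dtm ν n z) (u := u) (t := Metric.ball (0 : ℂ) R) (y₀ := z) (y := z) hu
    Metric.isOpen_ball (convex_ball (0 : ℂ) R).isPreconnected
    (fun n y _ => hasDerivAt_tm ν n y) (by
      intro n y hy
      rw [mem_ball_zero_iff] at hy
      cases n with
      | zero => simp [dtm, u]
      | succ n =>
        change ‖-tm (ν + 1) y n‖ ≤ R ^ n / (n.factorial : ℝ)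
        rw [norm_neg]
        refine (tm_norm_le _ _ _).trans ?_
        gcongr) hball (tm_summable ν z) hball
  have h2 : ∑' n, dtm ν n z = -Bn (ν + 1) z := by
    have h3 : HasSum (fun n => dtm ν (n + 1) z) (-Bn (ν + 1) z) := (hasSum_tm (ν + 1) z).neg
    have h4 := HasSum.zero_add (f := fun n => dtm ν n z) h3
    have h5 : dtm ν 0 z + -Bn (ν + 1) z = -Bn (ν + 1) z := zero_add _
    rw [← h5]
    exact h4.tsum_eq
  rw [h2] at key
  exact key

lemma rec_Bn (ν : ℕ) (z : ℂ) : z * Bn (ν + 2) z = ((ν : ℂ) + 1) * Bn (ν + 1) z - Bn ν z := by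
  let t : ℕ → ℂ := fun j => ((ν : ℂ) + 1) * tm (ν + 1) z j - tm ν z j
  have h1 : HasSum t (((ν : ℂ) + 1) * Bn (ν + 1) z - Bn ν z) :=
    ((hasSum_tm (ν + 1) z).mul_left _).sub (hasSum_tm ν z)
  have h2 : HasSum (fun k => t (k + 1)) (z * Bn (ν + 2) z) := by
    have h3 := (hasSum_tm (ν + 2) z).mul_left z
    have h4 : (fun k => t (k + 1)) = fun k => z * tm (ν + 2) z k := by
      funext k
      have e1 : ((k.factorial : ℕ) : ℂ) ≠ 0 := by exact_mod_cast Nat.factorial_ne_zero k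
      have e2 : (((k + 1 + ν).factorial : ℕ) : ℂ) ≠ 0 := by
        exact_mod_cast Nat.factorial_ne_zero (k + 1 + ν)
      have e3 : ((k : ℂ) + 1) ≠ 0 := by exact_mod_cast Nat.succ_ne_zero k
      have e4 : ((k : ℂ) + 1 + ν + 1) ≠ 0 := by exact_mod_cast Nat.succ_ne_zero (k + 1 + ν)
      have e5 : k + (ν + 2) = k + 1 + ν + 1 := by omega
      have e6 : k + 1 + (ν + 1) = k + 1 + ν + 1 := by omega
      simp only [t, tm, e5, e6, Nat.factorial_succ k, Nat.factorial_succ (k + 1 + ν)]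
      push_cast
      rw [pow_succ]
      field_simp
      ring
    rw [h4]
    exact h3
  have h5 := HasSum.zero_add (f := t) h2
  have h6 : t 0 = 0 := by
    have e1 : ((ν.factorial : ℕ) : ℂ) ≠ 0 := by exact_mod_cast Nat.factorial_ne_zero ν
    have e2 : ((ν : ℂ) + 1) ≠ 0 := by exact_mod_cast Nat.succ_ne_zero ν
    simp only [t, tm, zero_add, pow_zero, Nat.factorial_zero, Nat.factorial_succ ν]
    push_cast
    field_simp
    ring
  rw [h6, zero_add] at h5
  exact h5.unique h1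

theorem bes : S_BES := fun ν =>
  ⟨fun z => (hasDerivAt_Bn ν z).differentiableAt, hasSum_tm ν, hasDerivAt_Bn ν, rec_Bn ν⟩

end Pool.Agent.Y971.SG
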